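import Pool.Agent.U945.FD.Core

set_option autoImplicit false

/-!
# Sums of few elements of a finitely generated group: complex numbers, recurrences, digits
-/

namespace Pool.Agent.U945.FD

open Finset

/-- the products of powers of the numbers `g j` -/
def Grp {r : ℕ} (g : Fin r → ℂ) : Set ℂ := {u | ∃ e : Fin r → ℤ, u = ∏ j, g j ^ e j}

/-- **Sums of complex numbers.** -/
theorem ccore {r : ℕ} (g : Fin r → ℂ) (hg : ∀ j, IsAlgebraic ℚ (g j)) (hg0 : ∀ j, g j ≠ 0)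
    (X : Set ℚ) (h0 : (0 : ℚ) ∉ X)
    (hS : {q : ℕ | q.Prime ∧ ∃ x ∈ X, padicValRat q x ≠ 0}.Finite) (N : ℕ) :
    ∃ R : Finset ℂ, ∀ (ι : Type) (J : Finset ι) (f : ι → ℂ), J.card ≤ N →
      (∀ i ∈ J, f i ∈ Grp g) → ∀ x ∈ X, ∑ i ∈ J, f i = (x : ℂ) →
      (∃ i ∈ J, (x : ℂ) / f i ∈ R) ∧
      (∀ i ∈ J, f i / (x : ℂ) ∈ R ∨ ∃ j ∈ J, j ≠ i ∧ f i / f j ∈ R) ∧
      ((∀ J' ⊆ J, J'.Nonempty → ∑ i ∈ J', f i ≠ 0) → ∀ i ∈ J, (x : ℂ) / f i ∈ R) := by
  classical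
  set L := IntermediateField.adjoin ℚ (Set.range g) with hL
  have hfd : FiniteDimensional ℚ L := IntermediateField.finiteDimensional_adjoin (by
    rintro _ ⟨j, rfl⟩
    exact (hg j).isIntegral)
  have : NumberField L := { to_charZero := inferInstance, to_finiteDimensional := hfd }
  have hgL : ∀ j, g j ∈ L := fun j => IntermediateField.subset_adjoin ℚ _ ⟨j, rfl⟩
  set g' : Fin r → Lˣ := fun j => Units.mk0 ⟨g j, hgL j⟩ (fun h => hg0 j (congrArg Subtype.val h))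
    with hg'
  have hg'v : ∀ j, ((g' j : L) : ℂ) = g j := fun j => rfl
  set U : Subgroup Lˣ := Subgroup.closure ((univ.image g' : Finset Lˣ) : Set Lˣ) with hU
  obtain ⟨R, hR⟩ := core L U ⟨_, rfl⟩ X h0 hS N
  refine ⟨R.image (fun z : L => (z : ℂ)), ?_⟩
  intro ι J f hJ hf x hx hsum
  choose! e he using hf
  set u : ι → Lˣ := fun i => ∏ j, g' j ^ e i j with hu
  have hmem : ∀ i, u i ∈ U := by
    intro i
    refine Subgroup.prod_mem _ (fun j _ => Subgroup.zpow_mem _ (Subgroup.subset_closure ?_) _)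
    rw [Finset.mem_coe, Finset.mem_image]
    exact ⟨j, mem_univ j, rfl⟩
  have huv : ∀ i ∈ J, ((u i : L) : ℂ) = f i := by
    intro i hi
    rw [he i hi, hu]
    dsimp only
    rw [Units.coe_prod]
    have : ((∏ j, ((g' j ^ e i j : Lˣ) : L) : L) : ℂ) = ∏ j, (((g' j ^ e i j : Lˣ) : L) : ℂ) :=
      map_prod L.val _ _
    rw [this]
    refine Finset.prod_congr rfl fun j _ => ?_
    rw [Units.val_zpow_eq_zpow_val]
    have h2 : ((((g' j : L)) ^ e i j : L) : ℂ) = ((g' j : L) : ℂ) ^ e i j := map_zpow₀ L.val _ _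
    rw [h2, hg'v]
  have hxc : (((x : L) : L) : ℂ) = (x : ℂ) := map_ratCast L.val x
  have hs : ∑ i ∈ J, ((u i : L)) = (x : L) := by
    apply Subtype.ext
    have h1 : ((∑ i ∈ J, (u i : L) : L) : ℂ) = ∑ i ∈ J, ((u i : L) : ℂ) := map_sum L.val _ _
    rw [h1, hxc, ← hsum]
    exact Finset.sum_congr rfl fun i hi => huv i hi
  have hdiv : ∀ a b : L, ((a / b : L) : ℂ) = (a : ℂ) / (b : ℂ) := fun a b => map_div₀ L.val a b
  obtain ⟨h1, h2, h3⟩ := hR ι J (fun i => (u i : L)) hJ (fun i _ => ⟨u i, hmem i, rfl⟩) x hx hs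
  refine ⟨?_, ?_, ?_⟩
  · obtain ⟨i, hi, h⟩ := h1
    refine ⟨i, hi, Finset.mem_image.2 ⟨_, h, ?_⟩⟩
    rw [hdiv, hxc, huv i hi]
  · intro i hi
    rcases h2 i hi with h | ⟨j, hj, hji, h⟩
    · left
      refine Finset.mem_image.2 ⟨_, h, ?_⟩
      rw [hdiv, hxc, huv i hi]
    · right
      refine ⟨j, hj, hji, Finset.mem_image.2 ⟨_, h, ?_⟩⟩
      rw [hdiv, huv i hi, huv j hj]
  · intro hnd i hi
    refine Finset.mem_image.2 ⟨_, h3 (fun J' hJ' hne hs' => hnd J' hJ' hne ?_) i hi, ?_⟩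
    · have h4 : ((∑ i ∈ J', (u i : L) : L) : ℂ) = ∑ i ∈ J', ((u i : L) : ℂ) := map_sum L.val _ _
      rw [hs'] at h4
      rw [← Finset.sum_congr rfl fun i hi => huv i (hJ' hi), ← h4]
      rfl
    · rw [hdiv, hxc, huv i hi]

/-- **Linear recurrences.** -/
theorem recur {k : ℕ} (hk : 2 ≤ k) (c a : Fin k → ℂ) (hc : ∀ i, IsAlgebraic ℚ (c i))
    (ha : ∀ i, IsAlgebraic ℚ (a i)) (hc0 : ∀ i, c i ≠ 0) (ha0 : ∀ i, a i ≠ 0)
    (hne : ∀ i j, i ≠ j → ∀ n : ℕ, n ≠ 0 → a i ^ n ≠ a j ^ n) (X : Set ℚ) (h0 : (0 : ℚ) ∉ X)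
    (hS : {q : ℕ | q.Prime ∧ ∃ x ∈ X, padicValRat q x ≠ 0}.Finite) :
    {n : ℤ | ∃ x ∈ X, ∑ i, c i * a i ^ n = (x : ℂ)}.Finite := by
  classical
  obtain ⟨R, hR⟩ := ccore (Fin.append c a) (fun j => by
    refine Fin.addCases (fun i => ?_) (fun i => ?_) j
    · rw [Fin.append_left]; exact hc i
    · rw [Fin.append_right]; exact ha i) (fun j => by
    refine Fin.addCases (fun i => ?_) (fun i => ?_) j
    · rw [Fin.append_left]; exact hc0 i
    · rw [Fin.append_right]; exact ha0 i) X h0 hS k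
  -- finitely many `n` for each ratio
  have hfin : ∀ i j, i ≠ j → ∀ z : ℂ,
      {n : ℤ | (c i * a i ^ n) / (c j * a j ^ n) = z}.Finite := by
    intro i j hij z
    refine Set.Subsingleton.finite ?_
    intro n hn n' hn'
    rw [Set.mem_ofPred_eq] at hn hn'
    by_contra hcon
    have h1 : (c i * a i ^ n) / (c j * a j ^ n) = (c i * a i ^ n') / (c j * a j ^ n') := by
      rw [hn, hn']
    rw [mul_div_mul_comm, mul_div_mul_comm] at h1
    have h2 := mul_left_cancel₀ (div_ne_zero (hc0 i) (hc0 j)) h1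
    rw [← div_zpow, ← div_zpow] at h2
    have h3 : (a i / a j) ^ (n - n') = 1 := by
      rw [zpow_sub₀ (div_ne_zero (ha0 i) (ha0 j)), h2]
      exact div_self (zpow_ne_zero _ (div_ne_zero (ha0 i) (ha0 j)))
    have h4 : (a i / a j) ^ (n - n').natAbs = 1 := by
      rcases Int.natAbs_eq (n - n') with h4 | h4
      · rw [h4, zpow_natCast] at h3
        exact h3
      · rw [h4, zpow_neg, zpow_natCast, inv_eq_one] at h3
        exact h3
    rw [div_pow, div_eq_one_iff_eq (pow_ne_zero _ (ha0 j))] at h4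
    exact hne i j hij _ (by omega) h4
  set R' : Finset ℂ := R ∪ (R ×ˢ R).image (fun p => p.1 / p.2) with hR'
  have hbig : (⋃ i : Fin k, ⋃ j : Fin k, ⋃ z ∈ R', {n : ℤ | i ≠ j ∧
      (c i * a i ^ n) / (c j * a j ^ n) = z}).Finite := by
    refine Set.finite_iUnion fun i => Set.finite_iUnion fun j => ?_
    refine Set.Finite.biUnion R'.finite_toSet fun z _ => ?_
    by_cases hij : i = j
    · exact Set.Finite.subset Set.finite_empty (fun n hn => (hn.1 hij).elim)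
    · exact (hfin i j hij z).subset (fun n hn => hn.2)
  refine hbig.subset ?_
  rintro n ⟨x, hx, hsum⟩
  have hx0 : (x : ℂ) ≠ 0 := by
    have : x ≠ 0 := fun h => h0 (h ▸ hx)
    exact_mod_cast this
  obtain ⟨-, h2, -⟩ := hR (Fin k) univ (fun i => c i * a i ^ n) (by simp) (fun i _ => by
    refine ⟨Fin.append (Pi.single i 1) (Pi.single i n), ?_⟩
    rw [Fin.prod_univ_add]
    simp only [Fin.append_left, Fin.append_right]
    rw [Finset.prod_eq_single i, Finset.prod_eq_single i]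
    · rw [Pi.single_eq_same, Pi.single_eq_same, zpow_one]
    · intro j _ hj
      rw [Pi.single_eq_of_ne hj, zpow_zero]
    · intro h; exact absurd (mem_univ i) h
    · intro j _ hj
      rw [Pi.single_eq_of_ne hj, zpow_zero]
    · intro h; exact absurd (mem_univ i) h) x hx hsum
  have hnz : ∀ i, c i * a i ^ n ≠ 0 := fun i => mul_ne_zero (hc0 i) (zpow_ne_zero _ (ha0 i))
  have fin : ∀ i j, i ≠ j → (c i * a i ^ n) / (c j * a j ^ n) ∈ R' →
      n ∈ (⋃ i : Fin k, ⋃ j : Fin k, ⋃ z ∈ R', {n : ℤ | i ≠ j ∧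
      (c i * a i ^ n) / (c j * a j ^ n) = z}) := by
    intro i j hij h
    simp only [Set.mem_iUnion]
    exact ⟨i, j, _, h, hij, rfl⟩
  set i0 : Fin k := ⟨0, by omega⟩ with hi0
  set i1 : Fin k := ⟨1, by omega⟩ with hi1
  have h01 : i0 ≠ i1 := by
    intro h
    have := congrArg Fin.val h
    simp [hi0, hi1] at this
  rcases h2 i0 (mem_univ _) with h3 | ⟨j, -, hj, h3⟩
  · rcases h2 i1 (mem_univ _) with h4 | ⟨j, -, hj, h4⟩
    · apply fin i0 i1 h01
      rw [hR', Finset.mem_union, Finset.mem_image]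
      refine Or.inr ⟨(_, _), Finset.mem_product.2 ⟨h3, h4⟩, ?_⟩
      dsimp only
      rw [div_div_div_cancel_right₀ hx0]
    · exact fin i1 j hj.symm (Finset.mem_union_left _ h4)
  · exact fin i0 j hj.symm (Finset.mem_union_left _ h3)

/-- the natural numbers with at most `k` nonzero digits in base `b` -/
def FewDigits (b k : ℕ) : Set ℕ :=
  {n | ∃ J : Finset ℕ, J.card ≤ k ∧ ∃ d : ℕ → ℕ, (∀ m ∈ J, 0 < d m ∧ d m < b) ∧
    n = ∑ m ∈ J, d m * b ^ m}

/-- **Few digits.** -/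
theorem digits {b : ℕ} (hb : 2 ≤ b) (k : ℕ) (X : Set ℚ) (h0 : (0 : ℚ) ∉ X)
    (hS : {q : ℕ | q.Prime ∧ ∃ x ∈ X, padicValRat q x ≠ 0}.Finite) :
    ∃ F : Finset ℕ, ∀ n ∈ FewDigits b k, (n : ℚ) ∈ X → ∃ m ∈ F, ∃ j, n = m * b ^ j := by
  classical
  set g : Fin b → ℂ := fun j => ((j : ℕ) : ℂ) + 1 with hg
  have hgn : ∀ j : Fin b, g j = (((j : ℕ) + 1 : ℕ) : ℂ) := fun j => by rw [hg]; push_cast; ring
  have hGn : ∀ d : ℕ, 0 < d → d ≤ b → ∃ j : Fin b, g j = d := by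
    intro d hd hdb
    refine ⟨⟨d - 1, by omega⟩, ?_⟩
    rw [hgn]
    dsimp only
    rw [Nat.sub_add_cancel hd]
  obtain ⟨R, hR⟩ := ccore g (fun j => by rw [hgn]; exact isAlgebraic_natCast _)
    (fun j => by rw [hgn]; exact Nat.cast_ne_zero.2 (Nat.succ_ne_zero _)) X h0 hS k
  -- the natural numbers `q` with `q / d` in `R`
  have hfin : {q : ℕ | ∃ d : ℕ, d < b ∧ 0 < d ∧ (q : ℂ) / (d : ℂ) ∈ R}.Finite := by
    have h1 : {q : ℕ | ∃ d : ℕ, d < b ∧ 0 < d ∧ (q : ℂ) / (d : ℂ) ∈ R} ⊆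
        ⋃ d ∈ Finset.range b, ⋃ z ∈ R, {q : ℕ | 0 < d ∧ (q : ℂ) / (d : ℂ) = z} := by
      rintro q ⟨d, hd, hd0, h⟩
      simp only [Set.mem_iUnion]
      exact ⟨d, Finset.mem_range.2 hd, _, h, hd0, rfl⟩
    refine Set.Finite.subset ?_ h1
    refine Set.Finite.biUnion (Finset.finite_toSet _) fun d _ => ?_
    refine Set.Finite.biUnion (Finset.finite_toSet _) fun z _ => ?_
    refine Set.Subsingleton.finite ?_
    rintro q ⟨hd, hq⟩ q' ⟨_, hq'⟩
    rw [← hq'] at hq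
    have hd' : (d : ℂ) ≠ 0 := by exact_mod_cast hd.ne'
    have := (div_left_inj' hd').1 hq
    exact_mod_cast this
  refine ⟨hfin.toFinset, ?_⟩
  rintro n ⟨J, hJ, d, hd, hn⟩ hX
  have hn0 : n ≠ 0 := by
    intro h
    rw [h] at hX
    exact h0 (by simpa using hX)
  have hJne : J.Nonempty := by
    rw [Finset.nonempty_iff_ne_empty]
    intro h
    rw [h, Finset.sum_empty] at hn
    exact hn0 hn
  have hsum : ∑ m ∈ J, ((d m : ℂ) * (b : ℂ) ^ m) = ((n : ℚ) : ℂ) := by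
    rw [hn]
    push_cast
    rfl
  obtain ⟨-, -, h3⟩ := hR ℕ J (fun m => (d m : ℂ) * (b : ℂ) ^ m) hJ (fun m hm => by
    obtain ⟨j, hj⟩ := hGn (d m) (hd m hm).1 (hd m hm).2.le
    obtain ⟨j', hj'⟩ := hGn b (by omega) le_rfl
    refine ⟨Pi.single j 1 + Pi.single j' (m : ℤ), ?_⟩
    have hz : ∀ i, g i ≠ 0 := fun i => by rw [hgn]; exact Nat.cast_ne_zero.2 (Nat.succ_ne_zero _)
    simp only [Pi.add_apply]
    rw [Finset.prod_congr rfl (fun i _ => zpow_add₀ (hz i) _ _), Finset.prod_mul_distrib,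
      Finset.prod_eq_single j, Finset.prod_eq_single j']
    · rw [Pi.single_eq_same, Pi.single_eq_same, zpow_one, zpow_natCast, hj, hj']
    · intro i _ hi
      rw [Pi.single_eq_of_ne hi, zpow_zero]
    · intro h; exact absurd (mem_univ j') h
    · intro i _ hi
      rw [Pi.single_eq_of_ne hi, zpow_zero]
    · intro h; exact absurd (mem_univ j) h) (n : ℚ) hX hsum
  have hpos : ∀ m ∈ J, 0 < d m * b ^ m := fun m hm =>
    Nat.mul_pos (hd m hm).1 (pow_pos (by omega) _)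
  have h4 := h3 (by
    intro J' hJ' hne hs
    have h5 : ((∑ m ∈ J', d m * b ^ m : ℕ) : ℂ) = 0 := by
      push_cast
      exact hs
    have h6 : (∑ m ∈ J', d m * b ^ m : ℕ) = 0 := by exact_mod_cast h5
    have h7 : 0 < ∑ m ∈ J', d m * b ^ m := Finset.sum_pos (fun m hm => hpos m (hJ' hm)) hne
    omega)
  -- the lowest digit
  set m := J.min' hJne with hm
  have hmJ : m ∈ J := J.min'_mem hJne
  have hdvd : b ^ m ∣ n := by
    rw [hn]
    refine Finset.dvd_sum fun i hi => Dvd.dvd.mul_left (pow_dvd_pow b ?_) _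
    exact J.min'_le i hi
  obtain ⟨q, hq⟩ := hdvd
  refine ⟨q, ?_, m, by rw [hq, mul_comm]⟩
  rw [Set.Finite.mem_toFinset]
  refine ⟨d m, (hd m hmJ).2, (hd m hmJ).1, ?_⟩
  have h8 := h4 m hmJ
  have hb0 : (b : ℂ) ^ m ≠ 0 := pow_ne_zero _ (by exact_mod_cast (by omega : b ≠ 0))
  have h9 : (((n : ℚ)) : ℂ) / ((d m : ℂ) * (b : ℂ) ^ m) = (q : ℂ) / (d m : ℂ) := by
    rw [hq]
    push_cast
    rw [mul_comm (d m : ℂ), mul_div_mul_left _ _ hb0]
  rwa [h9] at h8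

end Pool.Agent.U945.FD
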