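import Pool.Agent.U945.APP.Fin
import Pool.Agent.U945.RV.Rank

set_option autoImplicit false

/-!
# Sums of few elements of a finitely generated group which have only primes in a finite set
-/

namespace Pool.Agent.U945.FD

open Finset Pool.Agent.N449.SP Pool.Agent.U945.APP

/-- rational numbers all of whose primes are in a finite set -/
theorem exists_group (X : Set ℚ) (h0 : (0 : ℚ) ∉ X)
    (hS : {q : ℕ | q.Prime ∧ ∃ x ∈ X, padicValRat q x ≠ 0}.Finite) :
    ∃ G : Subgroup ℚˣ, G.FG ∧ ∀ x ∈ X, x ∈ Pm G := by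
  classical
  set S : Finset ℕ := hS.toFinset with hSdef
  have hSm : ∀ q, q ∈ S ↔ q.Prime ∧ ∃ x ∈ X, padicValRat q x ≠ 0 := fun q => by
    rw [hSdef, Set.Finite.mem_toFinset]
    rfl
  set T : Finset ℚˣ := S.attach.image (fun q : {x // x ∈ S} => Units.mk0 ((q.1 : ℕ) : ℚ)
    (by exact_mod_cast ((hSm q.1).1 q.2).1.ne_zero)) with hT
  set G : Subgroup ℚˣ := Subgroup.closure (T : Set ℚˣ) with hGdef
  have hGfg : G.FG := ⟨T, rfl⟩
  have hG : ∀ q ∈ S, q.Prime → ∃ u ∈ G, ((u : ℚˣ) : ℚ) = q := by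
    intro q hq _
    refine ⟨Units.mk0 ((q : ℕ) : ℚ) (by exact_mod_cast ((hSm q).1 hq).1.ne_zero),
      Subgroup.subset_closure ?_, rfl⟩
    rw [hT, Finset.mem_coe, Finset.mem_image]
    exact ⟨⟨q, hq⟩, Finset.mem_attach _ _, rfl⟩
  have hmem : ∀ x ∈ X, x ∈ Pool.Agent.N449.SP.Pm G := by
    intro x hx
    have hx0 : x ≠ 0 := fun h => h0 (h ▸ hx)
    have hnum : x.num.natAbs ≠ 0 := by
      rw [Int.natAbs_ne_zero]
      exact Rat.num_ne_zero.2 hx0
    have hcop : Nat.Coprime x.num.natAbs x.den := x.reduced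
    have hvn : ∀ q : ℕ, q.Prime → padicValRat q x =
        (padicValNat q x.num.natAbs : ℤ) - padicValNat q x.den := by
      intro q hq
      rfl
    obtain ⟨u, hu, hu'⟩ := mem_gen S G hG x.num.natAbs hnum (fun q hq hd => by
      have : Fact q.Prime := ⟨hq⟩
      rw [hSm]
      refine ⟨hq, x, hx, ?_⟩
      have nd : ¬ q ∣ x.den := fun h =>
        Nat.Prime.one_lt hq |>.ne' (Nat.dvd_one.1 (hcop ▸ Nat.dvd_gcd hd h))
      rw [hvn q hq, padicValNat.eq_zero_of_not_dvd nd]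
      have h1 : 1 ≤ padicValNat q x.num.natAbs := one_le_padicValNat_of_dvd hnum hd
      intro h
      simp only [Nat.cast_zero, sub_zero, zero_sub, neg_eq_zero, Nat.cast_eq_zero] at h
      omega)
    obtain ⟨v, hv, hv'⟩ := mem_gen S G hG x.den x.den_nz (fun q hq hd => by
      have : Fact q.Prime := ⟨hq⟩
      rw [hSm]
      refine ⟨hq, x, hx, ?_⟩
      have nd : ¬ q ∣ x.num.natAbs := fun h =>
        Nat.Prime.one_lt hq |>.ne' (Nat.dvd_one.1 (hcop ▸ Nat.dvd_gcd h hd))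
      rw [hvn q hq, padicValNat.eq_zero_of_not_dvd nd]
      have h1 : 1 ≤ padicValNat q x.den := one_le_padicValNat_of_dvd x.den_nz hd
      intro h
      simp only [Nat.cast_zero, sub_zero, zero_sub, neg_eq_zero, Nat.cast_eq_zero] at h
      omega)
    refine ⟨u / v, div_mem hu hv, ?_⟩
    have huv : (((u / v : ℚˣ)) : ℚ) = (x.num.natAbs : ℚ) / x.den := by
      rw [Units.val_div_eq_div_val, hu', hv']
    rw [huv]
    rcases Int.natAbs_eq x.num with h | h
    · left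
      rw [← Int.cast_natCast (R := ℚ) x.num.natAbs, ← h]
      exact (Rat.num_div_den x).symm
    · right
      have h2 : (x.num.natAbs : ℚ) = -(x.num : ℚ) := by
        rw [← Int.cast_natCast (R := ℚ) x.num.natAbs, ← Int.cast_neg]
        congr 1
        omega
      rw [h2, neg_div, neg_neg]
      exact (Rat.num_div_den x).symm
  exact ⟨G, hGfg, hmem⟩

/-- **Sums in a number field.** -/
theorem core (L : Type) [Field L] [NumberField L] (U : Subgroup Lˣ) (hU : U.FG) (X : Set ℚ)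
    (h0 : (0 : ℚ) ∉ X) (hS : {q : ℕ | q.Prime ∧ ∃ x ∈ X, padicValRat q x ≠ 0}.Finite) (N : ℕ) :
    ∃ R : Finset L, ∀ (ι : Type) (J : Finset ι) (f : ι → L), J.card ≤ N →
      (∀ i ∈ J, ∃ u ∈ U, ((u : Lˣ) : L) = f i) → ∀ x ∈ X, ∑ i ∈ J, f i = (x : L) →
      (∃ i ∈ J, (x : L) / f i ∈ R) ∧
      (∀ i ∈ J, f i / (x : L) ∈ R ∨ ∃ j ∈ J, j ≠ i ∧ f i / f j ∈ R) ∧
      ((∀ J' ⊆ J, J'.Nonempty → ∑ i ∈ J', f i ≠ 0) → ∀ i ∈ J, (x : L) / f i ∈ R) := by
  classical
  obtain ⟨G, hGfg, hG⟩ := exists_group X h0 hS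
  set φ : ℚˣ →* Lˣ := Units.map (algebraMap ℚ L : ℚ →* L) with hφ
  set Γ : Subgroup Lˣ := U ⊔ G.map φ with hΓ
  have hfg : (G.map φ).FG := by
    obtain ⟨T, hT⟩ := hGfg
    refine ⟨T.image φ, ?_⟩
    rw [Finset.coe_image, ← MonoidHom.map_closure, hT]
  obtain ⟨R₀, hR₀⟩ := ue_ratio (Pm Γ) (ue_numberField L Γ (hU.sup hfg)) (N + 1)
  refine ⟨R₀ ∪ R₀.image (fun z => -z), ?_⟩
  intro ι J f hJN hfU x hx hsum
  have hx0 : (x : L) ≠ 0 := by
    have : x ≠ 0 := fun h => h0 (h ▸ hx)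
    exact_mod_cast this
  have hf0 : ∀ i ∈ J, f i ≠ 0 := by
    intro i hi
    obtain ⟨u, -, hu⟩ := hfU i hi
    rw [← hu]
    exact u.ne_zero
  set F : Option ι → L := fun o => o.elim (-(x : L)) f with hF
  have hFs : ∀ i, F (some i) = f i := fun i => rfl
  have hFn : F none = -(x : L) := rfl
  set J₀ : Finset (Option ι) := insertNone J with hJ₀
  have hsum0 : ∑ o ∈ J₀, F o = 0 := by
    rw [hJ₀, Finset.sum_insertNone]
    rw [hFn]
    simp only [hFs]
    rw [hsum]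
    ring
  have hcard : J₀.card ≤ N + 1 := by
    rw [hJ₀, Finset.card_insertNone]
    omega
  have hFU : ∀ o ∈ J₀, F o ∈ Pm Γ := by
    intro o ho
    match o with
    | none =>
      rw [hFn]
      refine Pm.neg Γ _ ?_
      obtain ⟨u, hu, h1 | h1⟩ := hG x hx
      · exact ⟨φ u, (le_sup_right : G.map φ ≤ Γ) (Subgroup.mem_map_of_mem φ hu), Or.inl (by
          rw [h1, hφ]; simp)⟩
      · exact ⟨φ u, (le_sup_right : G.map φ ≤ Γ) (Subgroup.mem_map_of_mem φ hu), Or.inr (by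
          rw [h1, hφ]; simp)⟩
    | some i =>
      rw [hFs]
      rw [hJ₀, Finset.some_mem_insertNone] at ho
      obtain ⟨u, hu, h1⟩ := hfU i ho
      exact ⟨u, (le_sup_left : U ≤ Γ) hu, Or.inl h1.symm⟩
  have hF0 : ∀ o ∈ J₀, F o ≠ 0 := by
    intro o ho
    match o with
    | none =>
      rw [hFn]
      exact neg_ne_zero.2 hx0
    | some i =>
      rw [hFs]
      rw [hJ₀, Finset.some_mem_insertNone] at ho
      exact hf0 i ho
  -- the block of an element
  have block : ∀ o₀ ∈ J₀, ∃ J₁ ⊆ J₀, o₀ ∈ J₁ ∧ (∃ o ∈ J₁, o ≠ o₀) ∧ ∑ o ∈ J₁, F o = 0 ∧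
      ∀ o ∈ J₁, ∀ o' ∈ J₁, F o / F o' ∈ R₀ := by
    intro o₀ ho₀
    obtain ⟨J₁, hJ₁, ho₁, hs₁, hmin⟩ := exists_min F (fun J => o₀ ∈ J) J₀ ho₀ hsum0
    have hmin' : ∀ J' ⊆ J₁, J'.Nonempty → ∑ o ∈ J', F o = 0 → J' = J₁ := by
      intro J' hJ' hne hs'
      by_cases h : o₀ ∈ J'
      · exact hmin J' hJ' h hs'
      · exfalso
        have h2 : J₁ \ J' = J₁ := by
          refine hmin _ Finset.sdiff_subset (Finset.mem_sdiff.2 ⟨ho₁, h⟩) ?_
          have := Finset.sum_sdiff (f := F) hJ'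
          rw [hs', hs₁, add_zero] at this
          exact this
        obtain ⟨o, ho⟩ := hne
        have h3 := hJ' ho
        rw [← h2, Finset.mem_sdiff] at h3
        exact h3.2 ho
    refine ⟨J₁, hJ₁, ho₁, ?_, hs₁, ?_⟩
    · by_contra hcon
      push Not at hcon
      have h4 : J₁ = {o₀} := Finset.eq_singleton_iff_unique_mem.2 ⟨ho₁, hcon⟩
      rw [h4, Finset.sum_singleton] at hs₁
      exact hF0 o₀ ho₀ hs₁
    · exact hR₀ (Option ι) F J₁ ((Finset.card_le_card hJ₁).trans hcard)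
        (fun o ho => hFU o (hJ₁ ho)) hs₁ hmin'
  have hnone : none ∈ J₀ := Finset.none_mem_insertNone
  have hneg : ∀ i ∈ J, F none / F (some i) ∈ R₀ → (x : L) / f i ∈ R₀ ∪ R₀.image (fun z => -z) := by
    intro i _ h
    rw [Finset.mem_union, Finset.mem_image]
    refine Or.inr ⟨_, h, ?_⟩
    rw [hFn, hFs, neg_div, neg_neg]
  refine ⟨?_, ?_, ?_⟩
  · obtain ⟨J₁, hJ₁, h1, ⟨o, ho, hne⟩, h2, h3⟩ := block none hnone
    match o, hne with
    | some i, _ =>
      have hi : i ∈ J := by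
        have := hJ₁ ho
        rwa [hJ₀, Finset.some_mem_insertNone] at this
      exact ⟨i, hi, hneg i hi (h3 _ h1 _ ho)⟩
  · intro i hi
    have hi' : some i ∈ J₀ := by
      rw [hJ₀, Finset.some_mem_insertNone]
      exact hi
    obtain ⟨J₁, hJ₁, h1, ⟨o, ho, hne⟩, h2, h3⟩ := block (some i) hi'
    match o, hne with
    | some j, hne =>
      right
      have hj : j ∈ J := by
        have := hJ₁ ho
        rwa [hJ₀, Finset.some_mem_insertNone] at this
      refine ⟨j, hj, fun h => hne (by rw [h]), ?_⟩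
      rw [Finset.mem_union]
      exact Or.inl (h3 _ h1 _ ho)
    | none, _ =>
      left
      rw [Finset.mem_union, Finset.mem_image]
      refine Or.inr ⟨_, h3 _ h1 _ ho, ?_⟩
      rw [hFn, hFs, div_neg, neg_neg]
  · intro hnd i hi
    have hi' : some i ∈ J₀ := by
      rw [hJ₀, Finset.some_mem_insertNone]
      exact hi
    obtain ⟨J₁, hJ₁, h1, ⟨o, ho, hne⟩, h2, h3⟩ := block (some i) hi'
    have hn1 : none ∈ J₁ := by
      by_contra hcon
      refine hnd (eraseNone J₁) ?_ ⟨i, Finset.mem_eraseNone.2 h1⟩ ?_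
      · intro j hj
        have := hJ₁ (Finset.mem_eraseNone.1 hj)
        rwa [hJ₀, Finset.some_mem_insertNone] at this
      · have h4 : J₁ = (eraseNone J₁).map Function.Embedding.some := by
          rw [Finset.map_some_eraseNone, Finset.erase_eq_of_notMem hcon]
        rw [h4, Finset.sum_map] at h2
        exact h2
    exact hneg i hi (h3 _ hn1 _ h1)

end Pool.Agent.U945.FD
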